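import Pool.Agent.P.MP_67bdec_gt.Counter

namespace Pool.Agent.Results.MP_67bdec_gt.Counterexample

open Pool.Agent.P.MP_67bdec_gt

/-- Q1 is false as stated: an embedded piece of `z = x y` with analytic families of segments and
parabolic arcs that are not the parametric curves of any map of the conjectured form. -/
theorem result :
    ∃ X : Data, X.IsLP ∧ Set.InjOn X.F X.D ∧
      X.S = {p | 0 < p.1 ∧ 0 < p.2.1 ∧ p.2.2 = p.1 * p.2.1} ∧ ¬ X.Param :=
  ⟨cex, cex_isLP, cex_injOn, cex_S, cex_not_param⟩

end Pool.Agent.Results.MP_67bdec_gt.Counterexample
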