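import Pool.Agent.P.MP_67bdec_gt.Global

namespace Pool.Agent.Results.MP_67bdec_gt.Repaired

open Pool.Agent.P.MP_67bdec_gt

/-- Every surface as in Q1 has a parametrisation of the conjectured form by lines and vertical-axis
parabolas, and these contain the given segments and arcs unless the surface lies in a vertical
plane or in the graph of a polynomial of degree at most two. -/
theorem result (X : Data) (hX : X.IsLP) :
    ∃ (Φ : RatMap) (E : Set R3), dimH E ≤ 1 ∧
      ∀ t ∈ X.D, X.F t ∉ E → ∃ u v, Φ.dom u v ∧ X.F t = Φ.pt u v ∧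
        IsLine (Φ.uCurve u) ∧ IsVertParabola (Φ.vCurve v) ∧
        (¬ X.Exceptional → X.seg t ⊆ Φ.uCurve u ∧ X.arc t ⊆ Φ.vCurve v) :=
  classification hX

end Pool.Agent.Results.MP_67bdec_gt.Repaired
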